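import Mathlib

set_option autoImplicit false

open Finset

namespace EX

/-- Sidon set of natural numbers. -/
def Sid (A : Finset ℕ) : Prop :=
  ∀ a ∈ A, ∀ b ∈ A, ∀ c ∈ A, ∀ d ∈ A, a + b = c + d → (a = c ∧ b = d) ∨ (a = d ∧ b = c)

/-- Number of elements of `A` in the `j`-th of the `K` blocks of `[0, L)`. -/
def cnt (L K : ℕ) (A : Finset ℕ) (j : ℕ) : ℕ := (A.filter fun a => a * K / L = j).card

/-- Number of `(x', x'', x)` in `S` with `x' + x'' + c = a + x`. -/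
def R (S : Finset ℕ) (c a : ℕ) : ℕ :=
  ((S ×ˢ (S ×ˢ S)).filter fun q => q.1 + q.2.1 + c = a + q.2.2).card

/-- Number of `(x', x'', x)` in `S` with `c ≤ x - x' - x'' < c + w`. -/
def H (S : Finset ℕ) (c w : ℕ) : ℕ :=
  ((S ×ˢ (S ×ˢ S)).filter fun q => q.1 + q.2.1 + c ≤ q.2.2 ∧ q.2.2 < q.1 + q.2.1 + c + w).card

/-- The elements `x` of `S` such that `c + x` is in conflict with `A`. -/
def Bad (A S : Finset ℕ) (c : ℕ) : Finset ℕ :=
  S.filter fun x => (∃ a ∈ A, ∃ a' ∈ A, a ≠ a' ∧ ∃ y ∈ S, x + a = y + a') ∨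
    (∃ a ∈ A, ∃ y ∈ S, ∃ z ∈ S, x + y + c = a + z)

/-- The extension: the elements of `c + S` without the conflicts. -/
def Ext (A S : Finset ℕ) (c : ℕ) : Finset ℕ := (S \ Bad A S c).image fun x => c + x

end EX
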