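import Pool.Agent.Helper353.EX.Defs

set_option autoImplicit false

open Finset

namespace EX



theorem tri_sum (m : ℕ) : 2 * ∑ a ∈ range m, (m - a) = m * (m + 1) := by
  induction m with
  | zero => simp
  | succ m ih =>
    rw [Finset.sum_range_succ']
    have h : ∀ a ∈ range m, (m + 1 - (a + 1)) = m - a := fun a _ => by omega
    rw [Finset.sum_congr rfl h, Nat.mul_add, ih]
    simp only [Nat.sub_zero]
    ring

theorem tri_blocks (K m V : ℕ) (hm : m ≤ K) :
    2 * (((range K) ×ˢ ((range K) ×ˢ (range K))).filter fun i =>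
      i.1 + i.2.1 + (K - m) ≤ i.2.2 ∧ i.2.2 ≤ i.1 + i.2.1 + (K - m) + V + 1).card
      ≤ (V + 2) * (m * (m + 1)) := by
  have hcard : (((range K) ×ˢ ((range K) ×ˢ (range K))).filter fun i =>
      i.1 + i.2.1 + (K - m) ≤ i.2.2 ∧ i.2.2 ≤ i.1 + i.2.1 + (K - m) + V + 1).card
      ≤ (((range m).sigma (fun a => range (m - a))) ×ˢ range (V + 2)).card := by
    apply Finset.card_le_card_of_injOn
      (fun i => ((⟨i.1, i.2.1⟩ : (_ : ℕ) × ℕ), i.2.2 - (i.1 + i.2.1 + (K - m))))
    · rintro ⟨a, b, c⟩ hi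
      simp only [Finset.coe_filter, Set.mem_setOf_eq, Finset.mem_product, Finset.mem_range] at hi
      simp only [Finset.coe_product, Set.mem_prod, Finset.mem_coe, Finset.mem_sigma,
        Finset.mem_range]
      omega
    · rintro ⟨a, b, c⟩ hi ⟨a', b', c'⟩ hi' heq
      simp only [Finset.coe_filter, Set.mem_setOf_eq, Finset.mem_product, Finset.mem_range] at hi hi'
      simp only [Prod.mk.injEq, Sigma.mk.injEq, heq_eq_eq] at heq
      obtain ⟨⟨h1, h2⟩, h3⟩ := heq
      subst h1
      subst h2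
      have h4 : c = c' := by omega
      rw [h4]
  rw [Finset.card_product, Finset.card_sigma, Finset.card_range] at hcard
  simp only [Finset.card_range] at hcard
  have h5 := tri_sum m
  calc 2 * _ ≤ 2 * ((∑ a ∈ range m, (m - a)) * (V + 2)) := Nat.mul_le_mul_left 2 hcard
    _ = (V + 2) * (m * (m + 1)) := by rw [← h5]; ring

end EX
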