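import Pool.Agent.Helper353.EX.Defs
import Pool.Agent.Helper353.EX.P_tri_blocks

set_option autoImplicit false

open Finset

namespace EX



theorem H_le (L K m V c w : ℕ) (hL : 0 < L) (hK : 0 < K) (hm : m ≤ K) (S : Finset ℕ)
    (hS : ∀ a ∈ S, a < L) (B : ℝ) (hB : ∀ j, (cnt L K S j : ℝ) ≤ B)
    (hc1 : (K - m) * L ≤ K * c) (hc2 : K * (c + w) ≤ (K - m + V) * L) :
    (H S c w : ℝ) ≤ ((V : ℝ) + 2) * (m * (m + 1)) / 2 * B ^ 3 := by
  classical
  have hB0 : 0 ≤ B := le_trans (Nat.cast_nonneg _) (hB 0)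
  set TT := ((range K) ×ˢ ((range K) ×ˢ (range K))).filter fun i =>
      i.1 + i.2.1 + (K - m) ≤ i.2.2 ∧ i.2.2 ≤ i.1 + i.2.1 + (K - m) + V + 1 with hTT
  have hsub : ((S ×ˢ (S ×ˢ S)).filter fun q => q.1 + q.2.1 + c ≤ q.2.2 ∧
      q.2.2 < q.1 + q.2.1 + c + w) ⊆ TT.biUnion fun i =>
        (S.filter fun a => a * K / L = i.1) ×ˢ ((S.filter fun a => a * K / L = i.2.1) ×ˢ
          (S.filter fun a => a * K / L = i.2.2)) := by
    intro q hq
    rw [mem_filter, mem_product, mem_product] at hq
    obtain ⟨⟨h1, h2, h3⟩, h4, h5⟩ := hq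
    rw [mem_biUnion]
    refine ⟨(q.1 * K / L, q.2.1 * K / L, q.2.2 * K / L), ?_, ?_⟩
    · have key : ∀ x ∈ S, x * K / L < K ∧ (x * K / L) * L ≤ x * K ∧ x * K < (x * K / L + 1) * L := by
        intro x hx
        have hxL := hS x hx
        refine ⟨?_, Nat.div_mul_le_self _ _, ?_⟩
        · rw [Nat.div_lt_iff_lt_mul hL, mul_comm K L]
          exact Nat.mul_lt_mul_of_pos_right hxL hK
        · exact (Nat.div_lt_iff_lt_mul hL).1 (Nat.lt_succ_self _)
      obtain ⟨a1, a2, a3⟩ := key _ h1
      obtain ⟨b1, b2, b3⟩ := key _ h2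
      obtain ⟨c1, c2, c3⟩ := key _ h3
      rw [hTT, mem_filter, mem_product, mem_product, mem_range, mem_range, mem_range]
      refine ⟨⟨a1, b1, c1⟩, ?_, ?_⟩
      · show q.1 * K / L + q.2.1 * K / L + (K - m) ≤ q.2.2 * K / L
        generalize q.1 * K / L = i1 at *
        generalize q.2.1 * K / L = i2 at *
        generalize q.2.2 * K / L = i3 at *
        generalize K - m = M at *
        have e1 : (i1 + i2 + M) * L < (i3 + 1) * L := by
          calc (i1 + i2 + M) * L = i1 * L + i2 * L + M * L := by ring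
            _ ≤ q.1 * K + q.2.1 * K + K * c := by gcongr
            _ = (q.1 + q.2.1 + c) * K := by ring
            _ ≤ q.2.2 * K := by gcongr
            _ < (i3 + 1) * L := c3
        have := Nat.lt_of_mul_lt_mul_right e1
        omega
      · show q.2.2 * K / L ≤ q.1 * K / L + q.2.1 * K / L + (K - m) + V + 1
        generalize q.1 * K / L = i1 at *
        generalize q.2.1 * K / L = i2 at *
        generalize q.2.2 * K / L = i3 at *
        generalize K - m = M at *
        have e1 : i3 * L < (i1 + 1 + (i2 + 1) + (M + V)) * L := by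
          calc i3 * L ≤ q.2.2 * K := c2
            _ < (q.1 + q.2.1 + c + w) * K := Nat.mul_lt_mul_of_pos_right h5 hK
            _ = q.1 * K + q.2.1 * K + K * (c + w) := by ring
            _ ≤ (i1 + 1) * L + (i2 + 1) * L + (M + V) * L := by
                have := a3.le
                have := b3.le
                gcongr
            _ = (i1 + 1 + (i2 + 1) + (M + V)) * L := by ring
        have := Nat.lt_of_mul_lt_mul_right e1
        omega
    · simp [h1, h2, h3]
  have hcard : (H S c w : ℝ) ≤ ∑ i ∈ TT, B ^ 3 := by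
    have h1 : H S c w ≤ ∑ i ∈ TT, ((S.filter fun a => a * K / L = i.1) ×ˢ
        ((S.filter fun a => a * K / L = i.2.1) ×ˢ (S.filter fun a => a * K / L = i.2.2))).card :=
      le_trans (card_le_card hsub) card_biUnion_le
    have h2 : (H S c w : ℝ) ≤ ((∑ i ∈ TT, ((S.filter fun a => a * K / L = i.1) ×ˢ
        ((S.filter fun a => a * K / L = i.2.1) ×ˢ
          (S.filter fun a => a * K / L = i.2.2))).card : ℕ) : ℝ) := by
      exact_mod_cast h1
    refine le_trans h2 ?_
    rw [Nat.cast_sum]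
    refine sum_le_sum fun i _ => ?_
    rw [card_product, card_product]
    push_cast
    have g1 := hB i.1
    have g2 := hB i.2.1
    have g3 := hB i.2.2
    unfold cnt at g1 g2 g3
    calc _ ≤ B * (B * B) := by gcongr
      _ = B ^ 3 := by ring
  have htri := tri_blocks K m V hm
  rw [← hTT] at htri
  have htri' : (2 : ℝ) * (TT.card : ℝ) ≤ ((V : ℝ) + 2) * (m * (m + 1)) := by
    exact_mod_cast htri
  refine le_trans hcard ?_
  rw [sum_const, nsmul_eq_mul]
  have hB3 : 0 ≤ B ^ 3 := by positivity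
  have : (TT.card : ℝ) ≤ ((V : ℝ) + 2) * (m * (m + 1)) / 2 := by linarith
  exact mul_le_mul_of_nonneg_right this hB3

end EX
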