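import Pool.Agent.Helper353.EX.Defs

set_option autoImplicit false

open Finset

namespace EX



theorem avg2 (A S : Finset ℕ) (N c w : ℕ) (hA : A ⊆ Finset.Icc 1 N) (hw : 0 < w) :
    ∃ c' : ℕ, c + N ≤ c' ∧ c' < c + N + w ∧
      w * (∑ a ∈ A, R S c' a) ≤ A.card * H S c (w + N) := by
  have key : ∀ a ∈ A, ∑ c' ∈ Finset.Ico (c + N) (c + N + w), R S c' a ≤ H S c (w + N) := by
    intro a ha
    have haN := Finset.mem_Icc.1 (hA ha)
    unfold R H
    rw [← Finset.card_biUnion]
    · apply Finset.card_le_card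
      intro q hq
      rw [Finset.mem_biUnion] at hq
      obtain ⟨c', hc', hq⟩ := hq
      rw [Finset.mem_Ico] at hc'
      rw [Finset.mem_filter] at hq ⊢
      refine ⟨hq.1, ?_⟩
      have := hq.2
      constructor <;> omega
    · intro c1 _ c2 _ hne
      rw [Function.onFun, Finset.disjoint_left]
      intro q h1 h2
      rw [Finset.mem_filter] at h1 h2
      apply hne
      have e1 := h1.2
      have e2 := h2.2
      omega
  by_contra hcon
  push Not at hcon
  have h1 : ∀ c' ∈ Finset.Ico (c + N) (c + N + w),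
      A.card * H S c (w + N) < w * ∑ a ∈ A, R S c' a := by
    intro c' hc'
    rw [Finset.mem_Ico] at hc'
    exact hcon c' hc'.1 hc'.2
  have hne : (Finset.Ico (c + N) (c + N + w)).Nonempty := by
    rw [Finset.nonempty_Ico]
    omega
  have h2 := Finset.sum_lt_sum_of_nonempty hne h1
  rw [Finset.sum_const, Nat.card_Ico, smul_eq_mul, ← Finset.mul_sum] at h2
  have h3 : ∑ c' ∈ Finset.Ico (c + N) (c + N + w), ∑ a ∈ A, R S c' a ≤ A.card * H S c (w + N) := by
    rw [Finset.sum_comm]
    calc ∑ a ∈ A, ∑ c' ∈ Finset.Ico (c + N) (c + N + w), R S c' a ≤ ∑ a ∈ A, H S c (w + N) :=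
          Finset.sum_le_sum key
      _ = A.card * H S c (w + N) := by rw [Finset.sum_const, smul_eq_mul]
  have h4 : c + N + w - (c + N) = w := by omega
  rw [h4] at h2
  have h5 := Nat.mul_le_mul_left w h3
  omega

end EX
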