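import Pool.Agent.Helper353.EX.Defs

set_option autoImplicit false

open Finset

namespace EX



theorem bad_one (A S : Finset ℕ) (hS : Sid S) :
    (S.filter fun x => ∃ a ∈ A, ∃ a' ∈ A, a ≠ a' ∧ ∃ y ∈ S, x + a = y + a').card
      ≤ A.card * A.card := by
  classical
  have h : ∀ x ∈ S.filter (fun x => ∃ a ∈ A, ∃ a' ∈ A, a ≠ a' ∧ ∃ y ∈ S, x + a = y + a'),
      ∃ p : ℕ × ℕ, p.1 ∈ A ∧ p.2 ∈ A ∧ p.1 ≠ p.2 ∧ ∃ y ∈ S, x + p.1 = y + p.2 := by
    intro x hx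
    obtain ⟨_, a, ha, a', ha', hne, y, hy, he⟩ := Finset.mem_filter.mp hx
    exact ⟨(a, a'), ha, ha', hne, y, hy, he⟩
  choose! p hp1 hp2 hp3 hp4 using h
  rw [← Finset.card_product]
  refine Finset.card_le_card_of_injOn p ?_ ?_
  · intro x hx
    exact Finset.mem_coe.mpr (Finset.mem_product.mpr ⟨hp1 x hx, hp2 x hx⟩)
  · intro x hx x2 hx2 he
    have hx' := Finset.mem_coe.mp hx
    have hx2' := Finset.mem_coe.mp hx2
    obtain ⟨y, hy, e1⟩ := hp4 x hx'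
    obtain ⟨y2, hy2, e2⟩ := hp4 x2 hx2'
    have hne := hp3 x hx'
    rw [← he] at e2
    have hxS := (Finset.mem_filter.mp hx').1
    have hx2S := (Finset.mem_filter.mp hx2').1
    rcases hS x hxS y2 hy2 x2 hx2S y hy (by omega) with ⟨h1, _⟩ | ⟨h1, _⟩
    · exact h1
    · exfalso
      subst h1
      exact hne (by omega)

end EX
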