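import Pool.Agent.Helper353.EX.Defs

set_option autoImplicit false

open Finset

namespace EX



theorem bad_two (A S : Finset ℕ) (c : ℕ) :
    (S.filter fun x => ∃ a ∈ A, ∃ y ∈ S, ∃ z ∈ S, x + y + c = a + z).card
      ≤ ∑ a ∈ A, R S c a := by
  classical
  have hsub : (S.filter fun x => ∃ a ∈ A, ∃ y ∈ S, ∃ z ∈ S, x + y + c = a + z) ⊆
      A.biUnion (fun a => (((S ×ˢ (S ×ˢ S)).filter
        fun q => q.1 + q.2.1 + c = a + q.2.2)).image (fun q => q.1)) := by
    intro x hx
    rw [Finset.mem_filter] at hx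
    obtain ⟨hxS, a, ha, y, hy, z, hz, h⟩ := hx
    rw [Finset.mem_biUnion]
    refine ⟨a, ha, ?_⟩
    rw [Finset.mem_image]
    refine ⟨(x, y, z), ?_, rfl⟩
    rw [Finset.mem_filter]
    refine ⟨?_, h⟩
    simp only [Finset.mem_product]
    exact ⟨hxS, hy, hz⟩
  refine (Finset.card_le_card hsub).trans ?_
  refine Finset.card_biUnion_le.trans ?_
  apply Finset.sum_le_sum
  intro a _
  exact Finset.card_image_le

end EX
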