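import Pool.Agent.Helper353.EX.Defs
import Pool.Agent.Helper353.EX.P_bad_one
import Pool.Agent.Helper353.EX.P_bad_two

set_option autoImplicit false

open Finset

namespace EX



theorem bad_card (A S : Finset ℕ) (hS : Sid S) (c : ℕ) :
    (Bad A S c).card ≤ A.card * A.card + ∑ a ∈ A, R S c a := by
  have h1 := bad_one A S hS
  have h2 := bad_two A S c
  have h3 : (Bad A S c).card ≤
      (S.filter fun x => ∃ a ∈ A, ∃ a' ∈ A, a ≠ a' ∧ ∃ y ∈ S, x + a = y + a').card +
      (S.filter fun x => ∃ a ∈ A, ∃ y ∈ S, ∃ z ∈ S, x + y + c = a + z).card := by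
    unfold Bad
    refine le_trans (Finset.card_le_card ?_) (Finset.card_union_le _ _)
    intro x hx
    rw [Finset.mem_filter] at hx
    rw [Finset.mem_union, Finset.mem_filter, Finset.mem_filter]
    rcases hx with ⟨hxS, h | h⟩
    · exact Or.inl ⟨hxS, h⟩
    · exact Or.inr ⟨hxS, h⟩
  omega

end EX
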