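import Pool.Agent.Helper353.EX.Defs

set_option autoImplicit false

open Finset

namespace EX



theorem num_R (k s L w q Hr B N : ℝ) (hk : 1 ≤ k) (hN : 0 ≤ N) (hs : 10 ^ 12 * k * (N + 2) ≤ s)
    (hL : L = s ^ 2 + s) (hw : 1000 * L / (4 * k * 1000000) - (N + 2) ≤ w)
    (hB : B = (1 + 1 / 100000) * s / (4 * k * 1000000))
    (hH : Hr ≤ (1000 + 2) * (1000000 * (1000000 + 1)) / 2 * B ^ 3)
    (hq : w * q ≤ k * Hr) : q ≤ (1 / 32 + 1 / 1000) * s / k := by
  have hk0 : 0 < k := by linarith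
  have hs1 : 2 * 10 ^ 12 ≤ s := by nlinarith
  have hs0 : 0 < s := by linarith
  have hNs : N + 2 ≤ s / (10 ^ 12 * k) := by
    rw [le_div_iff₀ (by positivity)]
    linarith
  have hw1 : (1 - 1 / 1000000) * (s ^ 2 / (4000 * k)) ≤ w := by
    have h1 : s ^ 2 / (4000 * k) ≤ 1000 * L / (4 * k * 1000000) := by
      rw [hL, div_le_div_iff₀ (by positivity) (by positivity)]
      nlinarith [mul_pos hs0 hk0]
    have h2 : s / (10 ^ 12 * k) ≤ (1 / 1000000) * (s ^ 2 / (4000 * k)) := by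
      have h3 : (1 / 1000000) * (s ^ 2 / (4000 * k)) - s / (10 ^ 12 * k) =
          s / k * (s / (4 * 10 ^ 9) - 1 / 10 ^ 12) := by
        field_simp
        ring
      have h4 : 0 ≤ s / k * (s / (4 * 10 ^ 9) - 1 / 10 ^ 12) := by
        apply mul_nonneg (by positivity)
        have : s / (4 * 10 ^ 9) ≥ 500 := by
          rw [ge_iff_le, le_div_iff₀ (by positivity)]
          linarith
        norm_num at this ⊢
        linarith
      linarith
    linarith
  have hw0 : 0 < w := by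
    have : 0 < (1 - 1 / 1000000) * (s ^ 2 / (4000 * k)) := by
      apply mul_pos (by norm_num) (by positivity)
    linarith
  by_contra hcon
  push Not at hcon
  have h5 : w * ((1 / 32 + 1 / 1000) * s / k) < w * q := mul_lt_mul_of_pos_left hcon hw0
  have h6 : (1 - 1 / 1000000) * (s ^ 2 / (4000 * k)) * ((1 / 32 + 1 / 1000) * s / k) ≤
      w * ((1 / 32 + 1 / 1000) * s / k) := mul_le_mul_of_nonneg_right hw1 (by positivity)
  have h7 : k * Hr ≤ k * ((1000 + 2) * (1000000 * (1000000 + 1)) / 2 * B ^ 3) :=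
    mul_le_mul_of_nonneg_left hH hk0.le
  have h8 : k * ((1000 + 2) * (1000000 * (1000000 + 1)) / 2 * B ^ 3) =
      ((1000 + 2) * (1000000 * (1000000 + 1)) / 2 * ((1 + 1 / 100000) / (4 * 1000000)) ^ 3) * (s ^ 3 / k ^ 2) := by
    rw [hB]
    field_simp
  have h9 : (1 - 1 / 1000000) * (s ^ 2 / (4000 * k)) * ((1 / 32 + 1 / 1000) * s / k) =
      ((1 - 1 / 1000000) / 4000 * (1 / 32 + 1 / 1000)) * (s ^ 3 / k ^ 2) := by
    field_simp
  have h10 : 0 < s ^ 3 / k ^ 2 := by positivity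
  rw [h8] at h7
  rw [h9] at h6
  have h11 : ((1 - 1 / 1000000) / 4000 * (1 / 32 + 1 / 1000)) * (s ^ 3 / k ^ 2) <
    ((1000 + 2) * (1000000 * (1000000 + 1)) / 2 * ((1 + 1 / 100000) / (4 * 1000000)) ^ 3) * (s ^ 3 / k ^ 2) := by
    linarith
  have h12 := lt_of_mul_lt_mul_right h11 h10.le
  norm_num at h12

end EX
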