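import Pool.Agent.Helper353.EX.Defs

set_option autoImplicit false

open Finset

namespace EX



theorem num_fin (k s M C : ℝ) (hk : 1 ≤ k) (hs : 10 ^ 12 * k ^ 3 ≤ s) (hM0 : 0 ≤ M)
    (hM : M ≤ (2 - 1 / (4 * k) + 1 / (500 * k)) * s ^ 2)
    (hC : s - k ^ 2 - (1 / 32 + 1 / 1000) * s / k ≤ C) :
    1 / Real.sqrt 2 * (1 + 1 / (40 * k)) * Real.sqrt M ≤ C := by
  have hk0 : (0:ℝ) < k := by linarith
  obtain ⟨u, hu⟩ : ∃ u : ℝ, u = 1 / k := ⟨_, rfl⟩
  have hu0 : 0 < u := by rw [hu]; positivity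
  have huk : u * k = 1 := by rw [hu]; field_simp
  have hu1 : u ≤ 1 := by
    rw [hu, div_le_one hk0]; exact hk
  have hk3 : (0:ℝ) < k ^ 3 := by positivity
  have hs0 : 0 < s := by nlinarith
  have e1 : 1 / (4 * k) = u / 4 := by rw [hu]; field_simp
  have e2 : 1 / (500 * k) = u / 500 := by rw [hu]; field_simp
  have e3 : 1 / (40 * k) = u / 40 := by rw [hu]; field_simp
  have e4 : (1 / 32 + 1 / 1000) * s / k = (1 / 32 + 1 / 1000) * s * u := by
    rw [hu]; ring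
  rw [e1, e2] at hM
  rw [e3]
  rw [e4] at hC
  have h2 : (0:ℝ) < Real.sqrt 2 := Real.sqrt_pos.mpr (by norm_num)
  have h22 : Real.sqrt 2 * Real.sqrt 2 = 2 := Real.mul_self_sqrt (by norm_num)
  have hb : 0 ≤ Real.sqrt 2 * ((1 - 31 / 500 * u) * s) := by
    apply mul_nonneg h2.le
    apply mul_nonneg _ hs0.le
    linarith
  have hsq : Real.sqrt M ≤ Real.sqrt 2 * ((1 - 31 / 500 * u) * s) := by
    rw [Real.sqrt_le_left hb]
    have h3 : (Real.sqrt 2 * ((1 - 31 / 500 * u) * s)) ^ 2 =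
        (2 - u / 4 + u / 500) * s ^ 2 + 2 * (31 / 500 * u) ^ 2 * s ^ 2 := by
      have : (Real.sqrt 2 * ((1 - 31 / 500 * u) * s)) ^ 2 =
        (Real.sqrt 2 * Real.sqrt 2) * ((1 - 31 / 500 * u) * s) ^ 2 := by ring
      rw [this, h22]
      ring
    rw [h3]
    have h4 : 0 ≤ 2 * (31 / 500 * u) ^ 2 * s ^ 2 := by positivity
    linarith
  have h5 : 1 / Real.sqrt 2 * (1 + u / 40) * Real.sqrt M ≤
      (1 + u / 40) * ((1 - 31 / 500 * u) * s) := by
    calc 1 / Real.sqrt 2 * (1 + u / 40) * Real.sqrt M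
        ≤ 1 / Real.sqrt 2 * (1 + u / 40) * (Real.sqrt 2 * ((1 - 31 / 500 * u) * s)) := by gcongr
      _ = (1 + u / 40) * ((1 - 31 / 500 * u) * s) := by field_simp
  have h6 : 10 ^ 12 * k ^ 2 ≤ s * u := by
    have h7 : 10 ^ 12 * k ^ 3 * u ≤ s * u := mul_le_mul_of_nonneg_right hs hu0.le
    have h8 : 10 ^ 12 * k ^ 3 * u = 10 ^ 12 * k ^ 2 := by
      calc 10 ^ 12 * k ^ 3 * u = 10 ^ 12 * k ^ 2 * (u * k) := by ring
        _ = 10 ^ 12 * k ^ 2 := by rw [huk, mul_one]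
    linarith
  have h9 : 0 ≤ k ^ 2 := by positivity
  have h10 : 0 ≤ s * u ^ 2 := by positivity
  have h11 : (1 + u / 40) * ((1 - 31 / 500 * u) * s) =
      s - 37 / 1000 * (s * u) - 31 / 20000 * (s * u ^ 2) := by ring
  have h12 : s - k ^ 2 - (1 / 32 + 1 / 1000) * s * u =
      s - k ^ 2 - 129 / 4000 * (s * u) := by ring
  rw [h12] at hC
  rw [h11] at h5
  linarith
end EX
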