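import Pool.Agent.Helper353.EX.Defs

set_option autoImplicit false

open Finset

namespace EX



lemma sid_union_mem (A S : Finset ℕ) (c u : ℕ) (hu : u ∈ A ∪ Ext A S c) :
    u ∈ A ∨ ∃ x ∈ S, x ∉ Bad A S c ∧ u = c + x := by
  rcases Finset.mem_union.mp hu with h | h
  · exact Or.inl h
  · right
    unfold Ext at h
    obtain ⟨x, hx, rfl⟩ := Finset.mem_image.mp h
    rw [Finset.mem_sdiff] at hx
    exact ⟨x, hx.1, hx.2, rfl⟩

lemma sid_union_11 (A S : Finset ℕ) (c a a' x y : ℕ) (ha : a ∈ A) (ha' : a' ∈ A)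
    (hx : x ∈ S) (hy : y ∈ S) (hxB : x ∉ Bad A S c) (h : a + (c + x) = a' + (c + y)) :
    a = a' ∧ x = y := by
  by_cases haa : a = a'
  · subst haa
    exact ⟨rfl, by omega⟩
  · exfalso
    apply hxB
    unfold Bad
    rw [Finset.mem_filter]
    exact ⟨hx, Or.inl ⟨a, ha, a', ha', haa, y, hy, by omega⟩⟩

lemma sid_union_12 (A S : Finset ℕ) (c a x y z : ℕ) (ha : a ∈ A)
    (hx : x ∈ S) (hy : y ∈ S) (hz : z ∈ S) (hxB : x ∉ Bad A S c)
    (h : a + (c + z) = (c + x) + (c + y)) : False := by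
  apply hxB
  unfold Bad
  rw [Finset.mem_filter]
  exact ⟨hx, Or.inr ⟨a, ha, y, hy, z, hz, by omega⟩⟩

theorem sid_union (A S : Finset ℕ) (N c : ℕ) (hA : A ⊆ Finset.Icc 1 N) (hAS : Sid A)
    (hS : Sid S) (hc : 2 * N < c) : Sid (A ∪ Ext A S c) := by
  have hN : ∀ a ∈ A, a ≤ N := fun a ha => (Finset.mem_Icc.mp (hA ha)).2
  intro u hu v hv u' hu' v' hv' h
  rcases sid_union_mem A S c u hu with hu | ⟨x, hx, hxB, rfl⟩ <;>
    rcases sid_union_mem A S c v hv with hv | ⟨y, hy, hyB, rfl⟩ <;>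
    rcases sid_union_mem A S c u' hu' with hu' | ⟨x', hx', hxB', rfl⟩ <;>
    rcases sid_union_mem A S c v' hv' with hv' | ⟨y', hy', hyB', rfl⟩
  · exact hAS u hu v hv u' hu' v' hv' h
  · exfalso
    have := hN u hu
    have := hN v hv
    omega
  · exfalso
    have := hN u hu
    have := hN v hv
    omega
  · exfalso
    have := hN u hu
    have := hN v hv
    omega
  · exfalso
    have := hN u' hu'
    have := hN v' hv'
    omega
  · obtain ⟨h1, h2⟩ := sid_union_11 A S c u u' y y' hu hu' hy hy' hyB h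
    exact Or.inl ⟨h1, by rw [h2]⟩
  · obtain ⟨h1, h2⟩ := sid_union_11 A S c u v' y x' hu hv' hy hx' hyB (by omega)
    exact Or.inr ⟨h1, by rw [h2]⟩
  · exact (sid_union_12 A S c u x' y' y hu hx' hy' hy hxB' (by omega)).elim
  · exfalso
    have := hN u' hu'
    have := hN v' hv'
    omega
  · obtain ⟨h1, h2⟩ := sid_union_11 A S c v u' x y' hv hu' hx hy' hxB (by omega)
    exact Or.inr ⟨by rw [h2], h1⟩
  · obtain ⟨h1, h2⟩ := sid_union_11 A S c v v' x x' hv hv' hx hx' hxB (by omega)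
    exact Or.inl ⟨by rw [h2], h1⟩
  · exact (sid_union_12 A S c v x' y' x hv hx' hy' hx hxB' (by omega)).elim
  · exfalso
    have := hN u' hu'
    have := hN v' hv'
    omega
  · exact (sid_union_12 A S c u' x y y' hu' hx hy hy' hxB (by omega)).elim
  · exact (sid_union_12 A S c v' x y x' hv' hx hy hx' hxB (by omega)).elim
  · rcases hS x hx y hy x' hx' y' hy' (by omega) with ⟨h1, h2⟩ | ⟨h1, h2⟩
    · exact Or.inl ⟨by rw [h1], by rw [h2]⟩
    · exact Or.inr ⟨by rw [h1], by rw [h2]⟩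

end EX
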