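import Pool.Agent.Helper353.EX.Defs

set_option autoImplicit false

open Finset

namespace EX



theorem union_card (A S : Finset ℕ) (N c : ℕ) (hA : A ⊆ Finset.Icc 1 N) (hc : 2 * N < c) :
    (A ∪ Ext A S c).card + (Bad A S c).card = A.card + S.card := by
  have hdisj : Disjoint A (Ext A S c) := by
    rw [Finset.disjoint_left]
    intro a ha ha'
    have h1 := Finset.mem_Icc.1 (hA ha)
    unfold Ext at ha'
    rw [Finset.mem_image] at ha'
    obtain ⟨x, -, hx⟩ := ha'
    omega
  have hsub : Bad A S c ⊆ S := by
    unfold Bad
    exact Finset.filter_subset _ _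
  have hcard : (Ext A S c).card = (S \ Bad A S c).card := by
    unfold Ext
    exact Finset.card_image_of_injective _ (fun x y h => by simpa using h)
  have h2 := Finset.card_sdiff_add_card_eq_card hsub
  rw [Finset.card_union_of_disjoint hdisj, hcard]
  omega

end EX
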