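import Pool.Agent.Helper353.EX.P_prime_choice2
import Pool.Agent.Helper353.EX.P_avg2
import Pool.Agent.Helper353.EX.P_sid_union
import Pool.Agent.Helper353.EX.P_H_le
import Pool.Agent.Helper353.EX.P_num_R
import Pool.Agent.Helper353.EX.P_bad_card
import Pool.Agent.Helper353.EX.P_union_card
import Pool.Agent.Helper353.EX.P_num_fin
import Pool.Agent.Helper353.SQ.P_dense

set_option autoImplicit false

open Finset

namespace EX

theorem main (N : ℕ) (A : Finset ℕ) (hA : A ⊆ Finset.Icc 1 N) (hne : A.Nonempty)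
    (hAS : Sid A) :
    ∀ᶠ M : ℕ in Filter.atTop, ∃ B ⊆ Finset.Icc (N + 1) M, Sid (A ∪ B) ∧
      1 / Real.sqrt 2 * (1 + 1 / (40 * (A.card : ℝ))) * Real.sqrt M ≤ ((A ∪ B).card : ℝ) := by
  set k : ℕ := A.card with hk
  have hk0 : 0 < k := Finset.card_pos.2 hne
  have hkR : (1 : ℝ) ≤ k := by exact_mod_cast hk0
  obtain ⟨m, hm⟩ : ∃ m : ℕ, m = 1000000 := ⟨_, rfl⟩
  obtain ⟨T, hT⟩ : ∃ T : ℕ, T = 10 ^ 12 := ⟨_, rfl⟩
  have hmT : 4 * m ≤ T := by rw [hm, hT]; norm_num
  have hm0 : 0 < m := by rw [hm]; norm_num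
  have hmR : (m : ℝ) = 1000000 := by rw [hm]; norm_num
  have hTR : (T : ℝ) = 10 ^ 12 := by rw [hT]; norm_num
  have hT0 : 0 < T := by omega
  clear hm hT
  obtain ⟨K, hK⟩ : ∃ K : ℕ, K = 4 * k * m := ⟨_, rfl⟩
  have hK0 : 0 < K := by rw [hK]; positivity
  obtain ⟨p1, hp1⟩ := SQ.dense K hK0 (1 / 100000) (by norm_num)
  have hθ : (0 : ℝ) < 2 - 1 / (4 * k) + 1 / (4000 * k) := by
    have h1 : 1 / (4 * (k : ℝ)) ≤ 1 := by
      rw [div_le_one (by positivity)]; linarith
    have h2 : 0 < 1 / (4000 * (k : ℝ)) := by positivity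
    linarith
  filter_upwards [prime_choice2 (2 - 1 / (4 * k) + 1 / (4000 * k)) (1 / (500 * k) - 1 / (4000 * k))
    (N + 2) hθ (by
      have : 1 / (500 * (k : ℝ)) - 1 / (4000 * k) = 7 / (4000 * k) := by
        field_simp; norm_num
      rw [this]; positivity) (p1 + T * k ^ 3 * (N + 2) + 2)] with M hM
  obtain ⟨p, hp, hpp, hM1, hM2⟩ := hM
  have hpow : p1 + 2 ≤ p := by
    have := Nat.zero_le (T * k ^ 3 * (N + 2))
    omega
  obtain ⟨S, hS1, hS2, hS3, hS4⟩ := hp1 p hp (by omega)
  set s : ℕ := p - 1 with hs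
  set L : ℕ := p * s with hL
  have hps : p = s + 1 := by omega
  have hLs : L = s ^ 2 + s := by rw [hL, hps]; ring
  have hsb : T * k ^ 3 * (N + 2) ≤ s := by omega
  have hk3 : k ≤ k ^ 3 := Nat.le_self_pow (by norm_num) k
  have hsb2 : T * k * (N + 2) ≤ s := by
    refine le_trans ?_ hsb
    gcongr
  have hsb3 : T * k ^ 3 ≤ s := by
    refine le_trans ?_ hsb
    exact Nat.le_mul_of_pos_right _ (by omega)
  have hs0 : 0 < s := lt_of_lt_of_le (Nat.mul_pos hT0 (Nat.pow_pos hk0)) hsb3
  have hL0 : 0 < L := by rw [hLs]; exact Nat.add_pos_right _ hs0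
  -- the shift and the window
  have hmK : m ≤ K := by rw [hK]; exact Nat.le_mul_of_pos_left _ (by omega)
  set c0 : ℕ := ((K - m) * L + (K - 1)) / K with hc0
  have hc0a : (K - m) * L ≤ K * c0 := by
    have h := Nat.lt_div_mul_add (a := (K - m) * L + (K - 1)) hK0
    rw [← hc0] at h
    have e : c0 * K = K * c0 := Nat.mul_comm _ _
    omega
  have hc0b : K * c0 ≤ (K - m) * L + K := by
    have h := Nat.mul_div_le ((K - m) * L + (K - 1)) K
    rw [← hc0] at h
    omega
  set w0 : ℕ := 1000 * L / K with hw0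
  have hw0a : K * w0 ≤ 1000 * L := Nat.mul_div_le _ _
  have hw0b : 1000 * L < K * w0 + K := by
    have h := Nat.lt_div_mul_add (a := 1000 * L) hK0
    rw [← hw0] at h
    have e : w0 * K = K * w0 := Nat.mul_comm _ _
    omega
  have hLbig : K * (N + 2) ≤ L := by
    have h1 : K * (N + 2) ≤ s := by
      rw [hK]
      have : 4 * k * m * (N + 2) ≤ T * k * (N + 2) := by
        have e : 4 * k * m = 4 * m * k := by ring
        rw [e]
        gcongr
      exact this.trans hsb2
    rw [hLs]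
    exact h1.trans (Nat.le_add_left _ _)
  have hw0c : N + 2 < w0 := by
    by_contra hcon
    push Not at hcon
    have h1 : K * w0 ≤ K * (N + 2) := Nat.mul_le_mul_left _ hcon
    have h2 : K ≤ K * (N + 2) := Nat.le_mul_of_pos_right _ (by omega)
    omega
  set w : ℕ := w0 - (N + 1) with hw
  have hwpos : 0 < w := by omega
  obtain ⟨c, hc1, hc2, hc3⟩ := avg2 A S N c0 w hA hwpos
  -- size of c
  have hc2N : 2 * N < c := by
    have h1 : (K - m) * L ≤ K * c0 := hc0a
    have h2 : 3 * K ≤ 4 * (K - m) := by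
      have : m ≤ k * m := Nat.le_mul_of_pos_left _ hk0
      have e : K = 4 * (k * m) := by rw [hK]; ring
      omega
    have h3 : 3 * K * L ≤ 4 * (K * c0) := by
      calc 3 * K * L ≤ 4 * (K - m) * L := Nat.mul_le_mul_right _ h2
        _ = 4 * ((K - m) * L) := by ring
        _ ≤ 4 * (K * c0) := Nat.mul_le_mul_left _ h1
    have h4 : 3 * L ≤ 4 * c0 := by
      have : K * (3 * L) ≤ K * (4 * c0) := by
        calc K * (3 * L) = 3 * K * L := by ring
          _ ≤ 4 * (K * c0) := h3
          _ = K * (4 * c0) := by ring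
      exact Nat.le_of_mul_le_mul_left this hK0
    have h5 : N + 2 ≤ L := le_trans (Nat.le_mul_of_pos_left _ hK0) hLbig
    have h6 : 4 * (N + 2) ≤ L := by
      have : 4 * (N + 2) ≤ K * (N + 2) := by
        refine Nat.mul_le_mul_right _ ?_
        have : 1 ≤ k * m := Nat.mul_pos hk0 hm0
        have e : K = 4 * (k * m) := by rw [hK]; ring
        omega
      omega
    omega
  set B : Finset ℕ := Ext A S c with hB
  refine ⟨B, ?_, sid_union A S N c hA hAS hS3 hc2N, ?_⟩
  · -- B ⊆ [N+1, M]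
    intro x hx
    rw [hB] at hx
    unfold Ext at hx
    rw [Finset.mem_image] at hx
    obtain ⟨y, hy, rfl⟩ := hx
    have hyS := (Finset.mem_sdiff.1 hy).1
    have hyL := hS1 y hyS
    rw [Finset.mem_Icc]
    refine ⟨by omega, ?_⟩
    have hcle : c + y ≤ c0 + w0 + L := by omega
    have hR : ((c0 + w0 + L : ℕ) : ℝ) ≤ (2 - 1 / (4 * k) + 1 / (4000 * k)) * L + (N + 2) := by
      have e1 : (K : ℝ) * c0 ≤ (K - m) * L + K := by
        have : ((K * c0 : ℕ) : ℝ) ≤ (((K - m) * L + K : ℕ) : ℝ) := by exact_mod_cast hc0b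
        push_cast [Nat.cast_sub hmK] at this
        exact this
      have e2 : (K : ℝ) * w0 ≤ 1000 * L := by exact_mod_cast hw0a
      have hKR : (K : ℝ) = 4 * k * 1000000 := by rw [hK]; push_cast; rw [hmR]
      have hKp : (0 : ℝ) < K := by exact_mod_cast hK0
      have e3 : (K : ℝ) * (c0 + w0 + L) ≤ (K - m) * L + K + 1000 * L + K * L := by
        have e : (K : ℝ) * (c0 + w0 + L) = K * c0 + K * w0 + K * L := by ring
        rw [e]; linarith
      have e4 : (K : ℝ) * ((2 - 1 / (4 * k) + 1 / (4000 * k)) * L + (N + 2))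
          = 2 * K * L - m * L + 1000 * L + K * (N + 2) := by
        rw [hKR, hmR]; field_simp; ring
      have hN0 : (0 : ℝ) ≤ N := Nat.cast_nonneg _
      have e5 : (K : ℝ) * (c0 + w0 + L) ≤ K * ((2 - 1 / (4 * k) + 1 / (4000 * k)) * L + (N + 2)) := by
        rw [e4]
        have e6 : (K : ℝ) ≤ K * (N + 2) := le_mul_of_one_le_right hKp.le (by linarith)
        have e7 : ((K : ℝ) - m) * L = K * L - m * L := by ring
        linarith
      push_cast
      exact le_of_mul_le_mul_left e5 hKp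
    have hLp : (L : ℝ) ≤ (p : ℝ) ^ 2 := by
      have : L ≤ p ^ 2 := by
        calc L = p * s := hL
          _ ≤ p * p := Nat.mul_le_mul_left _ (by omega)
          _ = p ^ 2 := by ring
      exact_mod_cast this
    have hfin : ((c0 + w0 + L : ℕ) : ℝ) ≤ M := by
      refine hR.trans (le_trans ?_ hM1)
      gcongr
    have : c0 + w0 + L ≤ M := by exact_mod_cast hfin
    omega
  · -- the cardinality
    have hHle := H_le L K m 1000 c0 (w + N) hL0 hK0 hmK S hS1
      ((1 + 1 / 100000) * (s : ℝ) / K) hS4 hc0a (by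
        have h1 : w + N + 1 = w0 := by omega
        have h2 : K * (c0 + (w + N)) + K = K * c0 + K * w0 := by rw [← h1]; ring
        have h3 : (K - m + 1000) * L = (K - m) * L + 1000 * L := by ring
        rw [h3]
        omega)
    have hKR : (K : ℝ) = 4 * k * 1000000 := by rw [hK]; push_cast; rw [hmR]
    have hq := num_R k s L w ((∑ a ∈ A, R S c a : ℕ) : ℝ) (H S c0 (w + N) : ℝ)
      ((1 + 1 / 100000) * (s : ℝ) / (4 * k * 1000000)) N hkR (Nat.cast_nonneg _)
      (by rw [← hTR]; exact_mod_cast hsb2) (by rw [hLs]; push_cast; ring)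
      (by
        have e : (1000 : ℝ) * L < K * w0 + K := by exact_mod_cast hw0b
        have e2 : (w : ℝ) = w0 - (N + 1) := by
          rw [hw, Nat.cast_sub (by omega)]; push_cast; ring
        rw [e2, ← hKR]
        have hKp : (0 : ℝ) < K := by exact_mod_cast hK0
        have : (1000 : ℝ) * L / K ≤ w0 + 1 := by
          rw [div_le_iff₀ hKp]
          have e8 : ((w0 : ℝ) + 1) * K = K * w0 + K := by ring
          rw [e8]; exact e.le
        linarith) rfl
      (by rw [hKR, hmR] at hHle; push_cast at hHle; exact hHle)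
      (by exact_mod_cast hc3)
    have hbad := bad_card A S hS3 c
    have hcard := union_card A S N c hA hc2N
    have hbadR : ((Bad A S c).card : ℝ) ≤ (k : ℝ) ^ 2 + ((∑ a ∈ A, R S c a : ℕ) : ℝ) := by
      have : (Bad A S c).card ≤ k * k + ∑ a ∈ A, R S c a := hbad
      have h2 : ((Bad A S c).card : ℝ) ≤ ((k * k + ∑ a ∈ A, R S c a : ℕ) : ℝ) := by
        exact_mod_cast this
      push_cast at h2 ⊢
      nlinarith
    have hcardR : ((A ∪ B).card : ℝ) + ((Bad A S c).card : ℝ) = k + s := by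
      have h3 : (A ∪ B).card + (Bad A S c).card = k + s := by rw [hcard, hS2]
      exact_mod_cast h3
    refine num_fin k s M _ hkR (by rw [← hTR]; exact_mod_cast hsb3) (Nat.cast_nonneg _) ?_ ?_
    · have : (2 - 1 / (4 * (k : ℝ)) + 1 / (4000 * k)) + (1 / (500 * k) - 1 / (4000 * k))
          = 2 - 1 / (4 * k) + 1 / (500 * k) := by ring
      rw [this] at hM2
      exact hM2
    · linarith

end EX
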