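import Pool.Agent.Helper353.EX.Defs
import Pool.Agent.Helper213.Sidon.Prime

set_option autoImplicit false

namespace EX

theorem prime_ax (η : ℝ) (hη : 0 < η) :
    ∀ᶠ x : ℝ in Filter.atTop, ∃ p : ℕ, p.Prime ∧ x < (p : ℝ) ∧ (p : ℝ) ≤ (1 + η) * x :=
  Pool.Agent.Helper213.Sidon.prime_between η hη

end EX
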