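import Pool.Agent.Helper353.EX.Defs
import Pool.Agent.Helper353.EX.P_prime_ax

set_option autoImplicit false

open Finset

namespace EX



theorem prime_choice2 (θ τ D : ℝ) (hθ : 0 < θ) (hτ : 0 < τ) (p0 : ℕ) :
    ∀ᶠ M : ℕ in Filter.atTop, ∃ p : ℕ, p.Prime ∧ p0 ≤ p ∧ θ * (p : ℝ) ^ 2 + D ≤ M ∧
      (M : ℝ) ≤ (θ + τ) * (((p - 1 : ℕ) : ℝ)) ^ 2 := by
  obtain ⟨η, hη⟩ : ∃ η : ℝ, η = τ / (6 * (θ + τ)) := ⟨_, rfl⟩
  have hs : 0 < θ + τ := by linarith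
  have hη0 : 0 < η := by
    rw [hη]
    positivity
  have hη6 : 6 * η * (θ + τ) = τ := by
    rw [hη]
    field_simp
  have hη1 : η < 1 / 6 := by
    rw [hη, div_lt_iff₀ (by positivity)]
    linarith
  have hg : Filter.Tendsto (fun M : ℕ => Real.sqrt ((M : ℝ) / θ)) Filter.atTop Filter.atTop :=
    Real.tendsto_sqrt_atTop.comp (tendsto_natCast_atTop_atTop.atTop_div_const hθ)
  have hx : Filter.Tendsto (fun M : ℕ => Real.sqrt ((M : ℝ) / θ) * (1 - 2 * η)) Filter.atTop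
      Filter.atTop := hg.atTop_mul_const (by linarith)
  have hM : Filter.Tendsto (fun M : ℕ => ((M : ℝ)) * (2 * η - η ^ 2)) Filter.atTop Filter.atTop :=
    tendsto_natCast_atTop_atTop.atTop_mul_const (by nlinarith)
  filter_upwards [hx.eventually (prime_ax η hη0), hg.eventually_ge_atTop (1 / η),
    hM.eventually_ge_atTop D, hx.eventually_ge_atTop (p0 : ℝ)] with M h1 h2 h3 h4
  obtain ⟨p, hp, hpx, hpx2⟩ := h1
  obtain ⟨g, hgdef⟩ : ∃ g : ℝ, g = Real.sqrt ((M : ℝ) / θ) := ⟨_, rfl⟩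
  rw [← hgdef] at hpx hpx2 h2 h4
  have hg0 : 0 ≤ g := by
    rw [hgdef]
    exact Real.sqrt_nonneg _
  have hg2 : θ * g ^ 2 = M := by
    rw [hgdef, Real.sq_sqrt (by positivity)]
    field_simp
  have hηg : 1 ≤ η * g := by
    rw [div_le_iff₀ hη0] at h2
    linarith
  refine ⟨p, hp, ?_, ?_, ?_⟩
  · exact_mod_cast h4.trans hpx.le
  · have h5 : (p : ℝ) ≤ (1 - η) * g := by
      refine hpx2.trans ?_
      have : (1 + η) * (g * (1 - 2 * η)) = (1 - η) * g - 2 * η ^ 2 * g := by ring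
      rw [this]
      have : 0 ≤ 2 * η ^ 2 * g := by positivity
      linarith
    have h6 : (p : ℝ) ^ 2 ≤ ((1 - η) * g) ^ 2 := pow_le_pow_left₀ (Nat.cast_nonneg p) h5 2
    have h7 := mul_le_mul_of_nonneg_left h6 hθ.le
    have h8 : θ * ((1 - η) * g) ^ 2 = (1 - η) ^ 2 * M := by
      rw [← hg2]
      ring
    rw [h8] at h7
    nlinarith
  · have hp1 : 1 ≤ p := hp.one_lt.le
    rw [Nat.cast_sub hp1, Nat.cast_one]
    have h5 : (1 - 3 * η) * g ≤ (p : ℝ) - 1 := by nlinarith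
    have h6 : 0 ≤ (1 - 3 * η) * g := mul_nonneg (by linarith) hg0
    have h7 : ((1 - 3 * η) * g) ^ 2 ≤ ((p : ℝ) - 1) ^ 2 := pow_le_pow_left₀ h6 h5 2
    have h8 := mul_le_mul_of_nonneg_left h7 hs.le
    have h9 : θ ≤ (θ + τ) * (1 - 3 * η) ^ 2 := by
      have : (θ + τ) * (1 - 3 * η) ^ 2 = θ + τ - 6 * η * (θ + τ) + 9 * η ^ 2 * (θ + τ) := by ring
      rw [this, hη6]
      have : 0 ≤ 9 * η ^ 2 * (θ + τ) := by positivity
      linarith
    have h10 : θ * g ^ 2 ≤ (θ + τ) * (1 - 3 * η) ^ 2 * g ^ 2 :=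
      mul_le_mul_of_nonneg_right h9 (sq_nonneg g)
    rw [hg2] at h10
    calc (M : ℝ) ≤ (θ + τ) * (1 - 3 * η) ^ 2 * g ^ 2 := h10
      _ = (θ + τ) * ((1 - 3 * η) * g) ^ 2 := by ring
      _ ≤ _ := h8

end EX
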